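import Pool.Agent.H94R2.Eh.Fin

/-!
# Ehrhart's volume conjecture

Let `K` be a convex body in `ℝ^d` whose centroid is the origin and `𝕃 = A ℤ^d` a lattice.

1. If the origin is the only point of `𝕃` in the interior of `K`, then
   `V(K) ≤ (d+1)^d / d! * det 𝕃`. This is Ehrhart's conjecture of 1955, for every `d`.
2. The same bound holds as soon as the nonzero lattice points in the interior of `K` all lie in
   one open half-space whose boundary contains the origin.

Proof idea: for the field with two elements let `H` be the span of the monomials `z^m`,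
`m ∈ kK ∩ ℤ^d`. Counting dimensions, `H` has elements `h_m` with prescribed leading monomial `z^m`
whose orders of vanishing at `(1,…,1)` add up to at least `J |S| - C(d+J, d+1)` for every `J`.
The product of the `a`-th powers of the `h_m` has a nonzero coefficient at its leading monomial,
which is close to the centroid; a Frobenius argument (sums of coefficients over residue classes
modulo `2^e` of a polynomial vanishing to order more than `d (2^e - 1)` at `(1,…,1)` are zero)
bounds its order of vanishing. Letting `e` and then `k` tend to infinity gives the inequality.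
-/

namespace Pool.Agent.Results.MP_4c844b_co.EhrhartVolume

open MeasureTheory

theorem result (d : ℕ) (A : Matrix (Fin d) (Fin d) ℝ) (hA : A.det ≠ 0)
    (K : Set (Fin d → ℝ)) (hcomp : IsCompact K) (hconv : Convex ℝ K)
    (hint : (interior K).Nonempty)
    (hcent : (volume.real K)⁻¹ • ∫ x in K, x = 0) :
    (interior K ∩ Set.range (fun z : Fin d → ℤ => A.mulVec fun i => (z i : ℝ)) = {0} →
      volume.real K ≤ ((d : ℝ) + 1) ^ d / (d.factorial : ℝ) * |A.det|) ∧
    ((∃ u : (Fin d → ℝ) →ₗ[ℝ] ℝ,
        ∀ y ∈ interior K ∩ Set.range (fun z : Fin d → ℤ => A.mulVec fun i => (z i : ℝ)),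
          y ≠ 0 → 0 < u y) →
      volume.real K ≤ ((d : ℝ) + 1) ^ d / (d.factorial : ℝ) * |A.det|) := by
  have hV : volume.real K ≠ 0 := by
    rw [measureReal_def]
    refine (ENNReal.toReal_pos ?_ hcomp.measure_ne_top).ne'
    exact ((isOpen_interior.measure_pos volume hint).trans_le
      (measure_mono interior_subset)).ne'
  have hz : ∫ x in K, x = 0 := by
    rcases smul_eq_zero.mp hcent with h | h
    · exact absurd h (inv_ne_zero hV)
    · exact h
  have key : (∃ u : (Fin d → ℝ) →ₗ[ℝ] ℝ,
        ∀ y ∈ interior K ∩ Set.range (fun z : Fin d → ℤ => A.mulVec fun i => (z i : ℝ)),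
          y ≠ 0 → 0 < u y) →
      volume.real K ≤ ((d : ℝ) + 1) ^ d / (d.factorial : ℝ) * |A.det| := by
    rintro ⟨u, hu⟩
    refine H94R2.Eh.lattice_bound A hA K hcomp hconv hint hz u fun z hz1 hz2 => ?_
    refine hu _ ⟨hz1, z, rfl⟩ fun h0 => hz2 ?_
    have h1 := Matrix.eq_zero_of_mulVec_eq_zero hA h0
    funext i
    have h2 : (z i : ℝ) = 0 := congrFun h1 i
    exact_mod_cast h2
  refine ⟨fun h => key ⟨0, fun y hy hy0 => ?_⟩, key⟩
  rw [h] at hy
  exact absurd hy hy0

end Pool.Agent.Results.MP_4c844b_co.EhrhartVolume
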